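import Pool.Agent.Helper52.SX.Goals
import Pool.Agent.Helper67.CS.BRF
import Pool.Agent.Helper63.JT.CKP

/-!
# Project SX, packet BRT: brute force for few variables
-/

set_option autoImplicit false

namespace Pool.Agent.Helper85.SX

open Pool.Agent.Helper81.CC Pool.Agent.Helper78.DT Pool.Agent.Helper65.CS Pool.Agent.Helper52.SX
open Pool.Agent.Helper67.CS (vl_ofFn)
open Pool.Agent.Helper63.JT (hlv getD_hlv pt_gate)

/-- The value of a tuple, computed by halving the truth table. -/
def tvl (r : List Bool) (z : Tup) : Bool :=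
  ((z.1.map fun F => vl r F).foldl hlv z.2).getD 0 false

theorem foldl_hlv' {n : ℕ} (r : Fin n → Bool) (l : List DList) : ∀ T : List Bool,
    ((l.map fun F => vl (List.ofFn r) F).foldl hlv T).getD 0 false =
      T.getD (ixv r l) false := by
  induction l with
  | nil => intro T; rfl
  | cons F l ih =>
    intro T
    rw [List.map_cons, List.foldl_cons, ih, getD_hlv, ixv, vl_ofFn]

theorem tvl_ofFn {n : ℕ} (r : Fin n → Bool) (z : Tup) : tvl (List.ofFn r) z = tv r z :=
  foldl_hlv' r z.1 z.2

theorem pt_tvl (hX : PtxStmt) : PolyTime (fun y : (ℕ × Tup) × List Bool => tvl y.2 y.1.2) := by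
  have h1 : PolyTime fun y : (ℕ × Tup) × List Bool => y.1.2.1.map fun F => vl y.2 F := by
    refine PolyTime.list_map (l := fun y : (ℕ × Tup) × List Bool => y.1.2.1)
      (f := fun y (F : DList) => vl y.2 F) (by fun_prop) ?_
    exact (hX (((ℕ × Tup) × List Bool) × DList)).2.2.2 _ _ (by fun_prop) (by fun_prop)
  exact pt_gate (T := fun y : (ℕ × Tup) × List Bool => y.1.2.2) (by fun_prop) h1

/-- **BRT.** Brute force for few variables. -/
theorem brt (hX : PtxStmt) : BrtStmt := by
  intro M
  set S : List (List Bool) := (List.finite_length_le Bool M).toFinset.toList with hS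
  refine ⟨fun z => (S.find? fun r => decide (r.length = z.1) && tvl r z.2).getD [], ?_, ?_⟩
  · refine PolyTime.option_getD ?_ (by fun_prop)
    refine PolyTime.find? (l := fun _ => S)
      (f := fun (z : ℕ × Tup) r => decide (r.length = z.1) && tvl r z.2) (by fun_prop) ?_
    have h1 := pt_tvl hX
    fun_prop
  · rintro n z hn ⟨r, hr⟩
    have hmem : List.ofFn r ∈ S := by
      rw [hS, Finset.mem_toList, Set.Finite.mem_toFinset]
      simpa using hn
    have hsome : (S.find? fun r => decide (r.length = n) && tvl r z).isSome := by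
      rw [List.find?_isSome]
      exact ⟨_, hmem, by simp [tvl_ofFn, hr]⟩
    obtain ⟨r', hr'⟩ := Option.isSome_iff_exists.1 hsome
    have h2 := List.find?_some hr'
    simp only [Bool.and_eq_true, decide_eq_true_eq] at h2
    obtain ⟨h3, h4⟩ := h2
    subst h3
    have h5 : List.ofFn (fun i : Fin r'.length => r'.get i) = r' := List.ofFn_get r'
    refine ⟨fun i => r'.get i, ?_, ?_⟩
    · rw [← tvl_ofFn, h5]; exact h4
    · rw [h5]
      show (S.find? fun r => decide (r.length = r'.length) && tvl r z).getD [] = r'
      rw [hr']; rfl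

end Pool.Agent.Helper85.SX
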